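import Mathlib

namespace Pool.Agent.H.MP_f4bed7_co.T

open SimpleGraph

variable {V : Type*} {G : SimpleGraph V}

theorem par_unique (hT : G.IsTree) (r v w1 w2 : V) (h1 : G.Adj w1 v) (h2 : G.Adj w2 v)
    (e1 : G.dist r w1 + 1 = G.dist r v) (e2 : G.dist r w2 + 1 = G.dist r v) : w1 = w2 := by
  obtain ⟨p1, hp1⟩ := hT.connected.exists_walk_length_eq_dist r w1
  obtain ⟨p2, hp2⟩ := hT.connected.exists_walk_length_eq_dist r w2
  have a1 : (p1.concat h1).IsPath := Walk.isPath_of_length_eq_dist _ (by simp [hp1, e1])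
  have a2 : (p2.concat h2).IsPath := Walk.isPath_of_length_eq_dist _ (by simp [hp2, e2])
  have := hT.isAcyclic.path_unique ⟨_, a1⟩ ⟨_, a2⟩
  have h3 : p1.concat h1 = p2.concat h2 := congrArg Subtype.val this
  obtain ⟨h, -⟩ := Walk.concat_inj h3
  exact h

theorem par_exists (hT : G.IsTree) (r v : V) (hv : 0 < G.dist r v) :
    ∃ w, G.Adj w v ∧ G.dist r w + 1 = G.dist r v := by
  obtain ⟨p, hp⟩ := hT.connected.exists_walk_length_eq_dist v r
  cases p with
  | nil => simp at hv
  | @cons _ w _ h q =>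
    refine ⟨w, h.symm, ?_⟩
    have h1 : G.dist w r ≤ q.length := dist_le q
    have h2 := hT.dist_eq_dist_add_one_of_adj r h
    simp only [Walk.length_cons] at hp
    rw [dist_comm] at hp h1
    omega

/-- a parent map for a rooted tree -/
theorem exists_par (hT : G.IsTree) (r : V) : ∃ (par : V → V) (h : V → ℕ),
    (∀ v, 0 < h v → G.Adj (par v) v ∧ h (par v) + 1 = h v) ∧
    (∀ v w, G.Adj v w → (h w = h v + 1 ∧ par w = v) ∨ (h v = h w + 1 ∧ par v = w)) := by
  classical
  refine ⟨fun v => if hv : 0 < G.dist r v then (par_exists hT r v hv).choose else v,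
    fun v => G.dist r v, ?_, ?_⟩
  · intro v hv
    simp only [dif_pos hv]
    exact (par_exists hT r v hv).choose_spec
  · intro v w hvw
    rcases hT.dist_eq_dist_add_one_of_adj r hvw with h | h
    · right
      have hv : 0 < G.dist r v := by omega
      refine ⟨h, ?_⟩
      simp only [dif_pos hv]
      have := (par_exists hT r v hv).choose_spec
      exact par_unique hT r v _ _ this.1 hvw.symm this.2 h.symm
    · left
      have hv : 0 < G.dist r w := by omega
      refine ⟨h, ?_⟩
      simp only [dif_pos hv]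
      have := (par_exists hT r w hv).choose_spec
      exact par_unique hT r w _ _ this.1 hvw this.2 h.symm

section
variable (hc : G.Connected) (par : V → V) (h : V → ℕ)
  (H1 : ∀ v, 0 < h v → G.Adj (par v) v ∧ h (par v) + 1 = h v)
  (H2 : ∀ v w, G.Adj v w → (h w = h v + 1 ∧ par w = v) ∨ (h v = h w + 1 ∧ par v = w))

include H1 in
theorem h_iter (v : V) : ∀ i, i ≤ h v → h (par^[i] v) + i = h v := by
  intro i
  induction i with
  | zero => simp
  | succ i ih =>
    intro hi
    have := ih (by omega)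
    rw [Function.iterate_succ_apply']
    have := (H1 (par^[i] v) (by omega)).2
    omega

include hc H1 in
theorem dist_iter (v : V) : ∀ i, i ≤ h v → G.dist (par^[i] v) v ≤ i := by
  intro i
  induction i with
  | zero => simp
  | succ i ih =>
    intro hi
    have a := ih (by omega)
    have b := h_iter par h H1 v i (by omega)
    rw [Function.iterate_succ_apply']
    have c := (H1 (par^[i] v) (by omega)).1
    have d := hc.dist_triangle (u := par (par^[i] v)) (v := par^[i] v) (w := v)
    have e := dist_eq_one_iff_adj.mpr c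
    omega

include H1 H2 in
theorem meet (x s : V) (p : G.Walk s x) :
    ∃ i j, i + j ≤ p.length ∧ i ≤ h x ∧ j ≤ h s ∧ par^[i] x = par^[j] s := by
  induction p with
  | nil => exact ⟨0, 0, by simp, by simp, by simp, rfl⟩
  | @cons s t x hst q ih =>
    obtain ⟨i, j, h1, h2, h3, h4⟩ := ih
    simp only [Walk.length_cons]
    rcases H2 s t hst with ⟨a, b⟩ | ⟨a, b⟩
    · cases j with
      | zero =>
        have c := h_iter par h H1 x i h2
        simp only [Function.iterate_zero, id] at h4
        refine ⟨i + 1, 0, by omega, by rw [h4] at c; omega, by omega, ?_⟩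
        rw [Function.iterate_succ_apply', h4, b]; rfl
      | succ j =>
        refine ⟨i, j, by omega, h2, by omega, ?_⟩
        rw [h4, Function.iterate_succ_apply, b]
    · refine ⟨i, j + 1, by omega, h2, by omega, ?_⟩
      rw [h4, Function.iterate_succ_apply, b]

variable (d : ℕ) (hreg : ∀ v, (G.neighborSet v).ncard = d) (hd : 3 ≤ d)

include H2 hreg hd in
theorem children (u : V) : ∃ C : Finset V, C.card = d - 1 ∧ ∀ c ∈ C, par c = u ∧ h c = h u + 1 := by
  classical
  have hf : (G.neighborSet u).Finite := Set.finite_of_ncard_pos (by rw [hreg]; omega)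
  have h1 : d - 1 ≤ (hf.toFinset.erase (par u)).card := by
    have := Finset.pred_card_le_card_erase (s := hf.toFinset) (a := par u)
    rw [← Set.ncard_eq_toFinset_card _ hf, hreg] at this
    exact this
  obtain ⟨C, hC, hcard⟩ := Finset.exists_subset_card_eq h1
  refine ⟨C, hcard, fun c hc => ?_⟩
  have := hC hc
  simp only [Finset.mem_erase, Set.Finite.mem_toFinset, mem_neighborSet] at this
  rcases H2 u c this.2 with ⟨a, b⟩ | ⟨a, b⟩
  · exact ⟨b, a⟩
  · exact absurd b.symm this.1

include H2 hreg hd in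
theorem desc (u : V) : ∀ m, ∃ D : Finset V, D.card = (d - 1) ^ m ∧
    ∀ g ∈ D, par^[m] g = u ∧ h g = h u + m := by
  classical
  choose C hC1 hC2 using children par h H2 d hreg hd
  intro m
  induction m with
  | zero => exact ⟨{u}, by simp, by simp⟩
  | succ m ih =>
    obtain ⟨D, hD1, hD2⟩ := ih
    refine ⟨D.biUnion C, ?_, ?_⟩
    · rw [Finset.card_biUnion]
      · simp [hC1, hD1, pow_succ]
      · intro a _ b _ hab
        rw [Function.onFun, Finset.disjoint_left]
        intro c h1 h2
        exact hab ((hC2 a c h1).1.symm.trans (hC2 b c h2).1)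
    · intro g hg
      obtain ⟨a, ha, hg⟩ := Finset.mem_biUnion.mp hg
      have := hC2 a g hg
      have := hD2 a ha
      refine ⟨?_, by omega⟩
      rw [Function.iterate_succ_apply, (hC2 a g hg).1, this.1]

variable (k : ℕ) (hk : 1 ≤ k) (S : Set V) (hS : S.Pairwise (fun u v => k ≤ G.dist u v))
  (hcov : ∀ x, ∃ s ∈ S, G.dist s x < k)

include hc H1 H2 hreg hd hk hS hcov in
theorem out (u : V) (hu : u ∈ S) : ∃ O : Finset V, O.card = (d - 1) ^ ((k + 1) / 2 + 1) ∧
    ∀ s ∈ O, s ∈ S ∧ ∃ t, 1 ≤ t ∧ t ≤ 2 * k ∧ par^[t] s = u ∧ h s = h u + t := by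
  classical
  set m := (k + 1) / 2 + 1 with hm
  obtain ⟨D, hD1, hD2⟩ := desc par h H2 d hreg hd u m
  have key : ∀ g ∈ D, ∃ s, (s ∈ S ∧ ∃ t, 1 ≤ t ∧ t ≤ 2 * k ∧ par^[t] s = u ∧ h s = h u + t) ∧
      g = par^[h s - h u - m] s := by
    intro g hg
    obtain ⟨hg1, hg2⟩ := hD2 g hg
    obtain ⟨E, hE1, hE2⟩ := desc par h H2 d hreg hd g (k / 2)
    have hpos : 0 < E.card := by rw [hE1]; exact pow_pos (by omega) _
    obtain ⟨x, hx⟩ := Finset.card_pos.mp hpos
    obtain ⟨hx1, hx2⟩ := hE2 x hx
    obtain ⟨s, hs, hsx⟩ := hcov x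
    obtain ⟨p, hp⟩ := hc.exists_walk_length_eq_dist s x
    obtain ⟨i, j, a1, a2, a3, a4⟩ := meet par h H1 H2 x s p
    have b1 := h_iter par h H1 x i a2
    have b2 := h_iter par h H1 s j a3
    rw [a4] at b1
    have hux : par^[m + k / 2] x = u := by rw [Function.iterate_add_apply, hx1, hg1]
    have hus : par^[(m + k / 2 - i) + j] s = u := by
      rw [Function.iterate_add_apply, ← a4, ← Function.iterate_add_apply,
        show m + k / 2 - i + i = m + k / 2 by omega, hux]
    have hne : u ≠ s := by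
      intro e
      rw [← e] at b1 b2
      omega
    have c1 := hS hu hs hne
    have c2 := dist_iter hc par h H1 s ((m + k / 2 - i) + j) (by omega)
    rw [hus] at c2
    simp only at c1
    refine ⟨s, ⟨hs, (m + k / 2 - i) + j, by omega, by omega, hus, by omega⟩, ?_⟩
    rw [show h s - h u - m = (k / 2 - i) + j by omega, Function.iterate_add_apply, ← a4,
      ← Function.iterate_add_apply, show k / 2 - i + i = k / 2 by omega, hx1]
  choose! f hf1 hf2 using key
  refine ⟨D.image f, ?_, ?_⟩
  · rw [Finset.card_image_of_injOn, hD1]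
    intro a ha b hb hab
    rw [hf2 a ha, hf2 b hb, hab]
  · intro s hs
    obtain ⟨g, hg, rfl⟩ := Finset.mem_image.mp hs
    exact hf1 g hg

include hc H1 hS in
theorem inn (s : V) (hs : s ∈ S) (I : Finset V)
    (hI : ∀ u ∈ I, u ∈ S ∧ ∃ t, 1 ≤ t ∧ t ≤ 2 * k ∧ par^[t] s = u ∧ h s = h u + t) :
    I.card ≤ 2 := by
  classical
  have ge : ∀ u ∈ I, h u + k ≤ h s := by
    intro u hu
    obtain ⟨a, t, b1, b2, b3, b4⟩ := hI u hu
    have hne : u ≠ s := by
      intro e
      rw [e] at b4
      omega
    have c1 := hS a hs hne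
    have c2 := dist_iter hc par h H1 s t (by omega)
    rw [b3] at c2
    simp only at c1
    omega
  have sep : ∀ u ∈ I, ∀ v ∈ I, h u ≤ h v → u = v ∨ h u + k ≤ h v := by
    intro u hu v hv huv
    obtain ⟨a, t, b1, b2, b3, b4⟩ := hI u hu
    obtain ⟨a', t', b1', b2', b3', b4'⟩ := hI v hv
    by_cases hne : u = v
    · exact Or.inl hne
    right
    have c1 := hS a a' hne
    have e : par^[t - t'] v = u := by
      rw [← b3', ← Function.iterate_add_apply, show t - t' + t' = t by omega, b3]
    have c2 := dist_iter hc par h H1 v (t - t') (by omega)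
    rw [e] at c2
    simp only at c1
    omega
  have le : ∀ u ∈ I, h s ≤ h u + 2 * k ∧ h u < h s := by
    intro u hu
    obtain ⟨a, t, b1, b2, b3, b4⟩ := hI u hu
    omega
  by_contra hcon
  push Not at hcon
  obtain ⟨a, ha, b, hb, c, hc', hab, hac, hbc⟩ := Finset.two_lt_card.mp hcon
  have := ge a ha; have := ge b hb; have := ge c hc'
  have := le a ha; have := le b hb; have := le c hc'
  have k0 : 0 < k := by
    rcases Nat.eq_zero_or_pos k with e | e
    · obtain ⟨-, t, b1, b2, -⟩ := hI a ha
      omega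
    · exact e
  have s1 : h a + k ≤ h b ∨ h b + k ≤ h a := by
    rcases le_total (h a) (h b) with e | e
    · exact Or.inl ((sep a ha b hb e).resolve_left hab)
    · exact Or.inr ((sep b hb a ha e).resolve_left hab.symm)
  have s2 : h a + k ≤ h c ∨ h c + k ≤ h a := by
    rcases le_total (h a) (h c) with e | e
    · exact Or.inl ((sep a ha c hc' e).resolve_left hac)
    · exact Or.inr ((sep c hc' a ha e).resolve_left hac.symm)
  have s3 : h b + k ≤ h c ∨ h c + k ≤ h b := by
    rcases le_total (h b) (h c) with e | e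
    · exact Or.inl ((sep b hb c hc' e).resolve_left hbc)
    · exact Or.inr ((sep c hc' b hb e).resolve_left hbc.symm)
  omega

include hc H1 H2 hreg hd hk hS hcov in
theorem count (A : Finset V) (hA : ∀ a ∈ A, a ∈ S) : ∃ P : Finset (V × V),
    ((d - 1) ^ ((k + 1) / 2 + 1) - 2) * A.card ≤ P.card ∧
    ∀ p ∈ P, p.1 ∈ A ∧ p.2 ∈ S ∧ p.2 ∉ A ∧ G.dist p.1 p.2 ≤ 2 * k := by
  classical
  choose! O hO1 hO2 using out hc par h H1 H2 d hreg hd k hk S hS hcov
  set N := (d - 1) ^ ((k + 1) / 2 + 1)
  let Q : Finset (V × V) := A.biUnion (fun u => (O u).image (fun s => (u, s)))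
  have hQ : Q.card = N * A.card := by
    rw [Finset.card_biUnion]
    · rw [Finset.sum_congr rfl (g := fun _ => N)]
      · simp [mul_comm]
      · intro u hu
        rw [Finset.card_image_of_injective _ (fun a b hab => (Prod.mk.inj hab).2), hO1 u (hA u hu)]
    · intro a _ b _ hab
      rw [Function.onFun, Finset.disjoint_left]
      intro c h1 h2
      obtain ⟨x, -, rfl⟩ := Finset.mem_image.mp h1
      obtain ⟨y, -, e⟩ := Finset.mem_image.mp h2
      exact hab (Prod.mk.inj e).1.symm
  have memQ : ∀ p ∈ Q, p.1 ∈ A ∧ p.2 ∈ O p.1 := by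
    intro p hp
    obtain ⟨u, hu, hp⟩ := Finset.mem_biUnion.mp hp
    obtain ⟨x, hx, rfl⟩ := Finset.mem_image.mp hp
    exact ⟨hu, hx⟩
  have hin : (Q.filter (fun p => p.2 ∈ A)).card ≤ 2 * A.card := by
    apply Finset.card_le_mul_card_image_of_maps_to (f := Prod.snd)
    · intro p hp
      exact (Finset.mem_filter.mp hp).2
    · intro s hs
      rw [← Finset.card_image_of_injOn (f := Prod.fst)]
      · apply inn hc par h H1 k S hS s (hA s hs)
        intro u hu
        obtain ⟨p, hp, rfl⟩ := Finset.mem_image.mp hu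
        simp only [Finset.mem_filter] at hp
        obtain ⟨⟨a, -⟩, rfl⟩ := hp
        have := memQ p a
        exact ⟨hA _ this.1, (hO2 _ (hA _ this.1) _ this.2).2⟩
      · intro p hp q hq e
        simp only [Finset.coe_filter, Set.mem_setOf_eq] at hp hq
        exact Prod.ext e (hp.2.trans hq.2.symm)
  refine ⟨Q.filter (fun p => p.2 ∉ A), ?_, ?_⟩
  · have := Finset.card_filter_add_card_filter_not (s := Q) (fun p => p.2 ∈ A)
    rw [Nat.sub_mul]
    omega
  · intro p hp
    obtain ⟨a, b⟩ := Finset.mem_filter.mp hp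
    have c := memQ p a
    obtain ⟨e1, t, e2, e3, e4, e5⟩ := hO2 _ (hA _ c.1) _ c.2
    refine ⟨c.1, e1, b, ?_⟩
    have := dist_iter hc par h H1 p.2 t (by omega)
    rw [e4] at this
    omega
end

end Pool.Agent.H.MP_f4bed7_co.T
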